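import Pool.Agent.P.MP_65d7bf_co.Final

namespace Pool.Agent.Results.MP_65d7bf_co.Tetrahedra

/-- Every lattice-free tetrahedron in `ℝ³` has lattice width at most `2 + √2`. -/
theorem result (v : Fin 4 → Fin 3 → ℝ) (hv : AffineIndependent ℝ v)
    (hfree : ∀ z : Fin 3 → ℤ, (fun k => (z k : ℝ)) ∉ interior (convexHull ℝ (Set.range v))) :
    ∃ c : Fin 3 → ℤ, c ≠ 0 ∧ ∀ x ∈ convexHull ℝ (Set.range v), ∀ y ∈ convexHull ℝ (Set.range v),
      ∑ k, (c k : ℝ) * x k - ∑ k, (c k : ℝ) * y k ≤ 2 + Real.sqrt 2 :=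
  Pool.Agent.P.MP_65d7bf_co.main v hv hfree

end Pool.Agent.Results.MP_65d7bf_co.Tetrahedra
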